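import Pool.Agent.H93.ET.Defs

/-!
# Board `gth_modules`, row FCO: the function is constant on the classes
-/

set_option autoImplicit false

namespace Pool.Agent.H6.ET

open MeasureTheory AddCircle Finset Pool.Agent.H93.ET Pool.Agent.H85.SC Pool.Agent.H87.Synth

theorem iA_or (x : ℝ) : iA x = 0 ∨ iA x = 1 := by
  unfold iA
  split_ifs
  · exact Or.inr rfl
  · exact Or.inl rfl

theorem iE_or (x : ℝ) : iE x = 0 ∨ iE x = 1 := by
  unfold iE
  split_ifs
  · exact Or.inl rfl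
  · exact Or.inr rfl

theorem co_AB {d : ℕ → ℝ} (D : Dat d) (f : L1) (hf : FV D f) {k m : ℕ} (s : Bool)
    (h1 : D.mu k ≤ m) (h2 : m < D.mu (k + 1)) {z : ℤ} (hz : z ∈ D.AB k m s) :
    coeff f z = (sg s : ℂ) * (1 / 3) ^ k := by
  unfold Dat.AB at hz
  obtain ⟨t, ht, rfl⟩ := mem_image.1 hz
  exact hf.1 k t _ s ((D.hT k m h1 h2).2.1 t ht) (iA_or _)

theorem co_EB {d : ℕ → ℝ} (D : Dat d) (f : L1) (hf : FV D f) {k m : ℕ} (s : Bool)
    (h1 : D.mu k ≤ m) (h2 : m < D.mu (k + 1)) {z : ℤ} (hz : z ∈ D.EB k m s) :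
    coeff f z = (sg s : ℂ) * (1 / 3) ^ k := by
  unfold Dat.EB at hz
  obtain ⟨t, ht, rfl⟩ := mem_image.1 hz
  exact hf.1 k t _ s ((D.hT k m h1 h2).2.1 t ht) (iE_or _)

theorem co_EP {d : ℕ → ℝ} (D : Dat d) (f : L1) (hf : FV D f) {k : ℕ} (s : Bool) {z : ℤ}
    (hz : z ∈ D.EP k s) : coeff f z = (sg s : ℂ) * (1 / 3) ^ k := by
  unfold Dat.EP at hz
  cases k with
  | zero => simp at hz
  | succ k =>
    rw [if_neg (Nat.succ_ne_zero k), Nat.add_sub_cancel] at hz
    unfold GE at hz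
    rw [mem_filter] at hz
    rw [hf.2 k z hz.1, hz.2.1]

theorem pf_val {d : ℕ → ℝ} (D : Dat d) (f : L1) (hf : FV D f) (c : Cl) :
    ∃ v : ℂ, ∀ z ∈ cl D c, coeff f z = v := by
  cases c with
  | blk k m s =>
    refine ⟨(sg s : ℂ) * (1 / 3) ^ k, ?_⟩
    intro z hz
    simp only [cl] at hz
    split_ifs at hz with h h'
    · rcases mem_union.1 hz with h3 | h3
      · exact co_AB D f hf s h.1 h.2 h3
      · exact co_EP D f hf s h3
    · rcases mem_union.1 hz with h3 | h3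
      · exact co_AB D f hf s h.1 h.2 h3
      · have h4 : D.mu k ≤ m - 1 := by omega
        have h5 : m - 1 < D.mu (k + 1) := by omega
        exact co_EB D f hf s h4 h5 h3
    · simp at hz
  | gad k s =>
    refine ⟨(sg s : ℂ) * (1 / 3) ^ k, ?_⟩
    intro z hz
    simp only [cl] at hz
    rcases mem_union.1 hz with h3 | h3
    · unfold GA at h3
      rw [mem_filter] at h3
      rw [hf.2 k z h3.1, h3.2]
      push_cast
      rw [pow_succ]
      ring
    · have h6 : D.mu k < D.mu (k + 1) := D.hmu (Nat.lt_succ_self k)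
      exact co_EB D f hf s (by omega) (by omega) h3
  | par k t s =>
    refine ⟨(sg s : ℂ) * (1 / 3) ^ k, ?_⟩
    intro z hz
    simp only [cl] at hz
    split_ifs at hz with h
    · rw [mem_insert, mem_singleton] at hz
      rcases hz with h3 | h3
      · rw [h3]
        exact hf.1 k t 0 s h.1 (Or.inl rfl)
      · rw [h3]
        exact hf.1 k t 1 s h.1 (Or.inr rfl)
    · simp at hz

theorem fco (_h1 : T_PNT) : T_FCO := by
  intro d D f hf c z hz z' hz'
  obtain ⟨v, hv⟩ := pf_val D f hf c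
  rw [hv z hz, hv z' hz']

end Pool.Agent.H6.ET
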